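import Mathlib

/-!
Free groups are conjugacy separable: short proof with a permutation representation with
voltages in `(ZMod 3)^n`.
-/

set_option autoImplicit false

namespace Pool.Agent.H69FC

open List

section Rep

variable {α : Type*} [DecidableEq α] {m : ℕ} (w : ZMod (m+1) → α × Bool)

/-- `w` is cyclically reduced -/
def CR : Prop := ∀ j, w (j+1) ≠ ((w j).1, !(w j).2)

/-- domain of the partial permutation of the generator `g` -/
def Dom (g : α) (y : ZMod (m+1)) : Prop := w (y-1) = (g, true) ∨ w y = (g, false)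

/-- the partial permutation -/
def pf (g : α) (y : ZMod (m+1)) : ZMod (m+1) := if w (y-1) = (g, true) then y-1 else y+1

theorem pf_inj (hw : CR w) (g : α) {y z : ZMod (m+1)} (hy : Dom w g y) (hz : Dom w g z)
    (h : pf w g y = pf w g z) : y = z := by
  unfold pf at h
  by_cases h1 : w (y-1) = (g, true) <;> by_cases h2 : w (z-1) = (g, true)
  · rw [if_pos h1, if_pos h2] at h; exact sub_left_injective h
  · rw [if_pos h1, if_neg h2] at h
    have h3 : w z = (g, false) := hz.resolve_left h2
    exfalso
    apply hw z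
    rw [← h, h1, h3]; rfl
  · rw [if_neg h1, if_pos h2] at h
    have h3 : w y = (g, false) := hy.resolve_left h1
    exfalso
    apply hw y
    rw [h, h2, h3]; rfl
  · rw [if_neg h1, if_neg h2] at h; exact add_left_injective _ h

theorem exists_perm (hw : CR w) (g : α) :
    ∃ σ : Equiv.Perm (ZMod (m+1)), ∀ y, Dom w g y → σ y = pf w g y := by
  classical
  let f : {y // Dom w g y} → ZMod (m+1) := fun y => pf w g y.1
  have hf : Function.Injective f := fun y z h => Subtype.ext (pf_inj w hw g y.2 z.2 h)
  let e := Equiv.ofInjective f hf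
  refine ⟨Equiv.extendSubtype (q := fun z => z ∈ Set.range f) e, fun y hy => ?_⟩
  rw [Equiv.extendSubtype_apply_of_mem _ y hy]
  rfl

/-- the permutation of the generator `g` -/
noncomputable def sig (hw : CR w) (g : α) : Equiv.Perm (ZMod (m+1)) := (exists_perm w hw g).choose

theorem sig_spec (hw : CR w) (g : α) (y : ZMod (m+1)) (hy : Dom w g y) :
    sig w hw g y = pf w g y := (exists_perm w hw g).choose_spec y hy

/-- voltages of the `g`-edge starting at `y` -/
def V (g : α) (y : ZMod (m+1)) : ZMod (m+1) → ZMod 3 :=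
  if w (y-1) = (g, true) then Pi.single (y-1) 1
  else if w y = (g, false) then Pi.single y (-1) else 0

/-- letter `l` moves `y` to `dst l y` -/
noncomputable def dst (hw : CR w) (l : α × Bool) (y : ZMod (m+1)) : ZMod (m+1) :=
  if l.2 then sig w hw l.1 y else (sig w hw l.1).symm y

/-- voltage of the letter `l` at `y` -/
noncomputable def vol (hw : CR w) (l : α × Bool) (y : ZMod (m+1)) : ZMod (m+1) → ZMod 3 :=
  if l.2 then V w l.1 y else - V w l.1 ((sig w hw l.1).symm y)

theorem vol_cases (hw : CR w) (l : α × Bool) (y : ZMod (m+1)) :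
    vol w hw l y = 0 ∨
    (∃ j, vol w hw l y = Pi.single j 1 ∧ l = w j ∧ y = j + 1 ∧ dst w hw l y = j) ∨
    (∃ j, vol w hw l y = Pi.single j (-1)) := by
  obtain ⟨g, b⟩ := l
  cases b
  · -- negative letter
    set z := (sig w hw g).symm y with hz
    have hy : sig w hw g z = y := by rw [hz, Equiv.apply_symm_apply]
    have hv : vol w hw (g, false) y = - V w g z := by simp [vol, hz]
    have hd : dst w hw (g, false) y = z := by simp [dst, hz]
    rw [hv, hd]
    unfold V
    by_cases h1 : w (z-1) = (g, true)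
    · right; right
      rw [if_pos h1]
      exact ⟨z-1, by rw [Pi.single_neg]⟩
    · rw [if_neg h1]
      by_cases h2 : w z = (g, false)
      · right; left
        rw [if_pos h2]
        refine ⟨z, by rw [Pi.single_neg, neg_neg], h2.symm, ?_, rfl⟩
        rw [← hy, sig_spec w hw g z (Or.inr h2), pf, if_neg h1]
      · left; rw [if_neg h2, neg_zero]
  · -- positive letter
    have hv : vol w hw (g, true) y = V w g y := by simp [vol]
    have hd : dst w hw (g, true) y = sig w hw g y := by simp [dst]
    rw [hv, hd]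
    unfold V
    by_cases h1 : w (y-1) = (g, true)
    · right; left
      rw [if_pos h1]
      refine ⟨y-1, rfl, h1.symm, (sub_add_cancel y 1).symm, ?_⟩
      rw [sig_spec w hw g y (Or.inl h1), pf, if_pos h1]
    · rw [if_neg h1]
      by_cases h2 : w y = (g, false)
      · right; right
        rw [if_pos h2]
        exact ⟨y, rfl⟩
      · left; rw [if_neg h2]

/-- crossing `w j` at `j+1` -/
theorem vol_w (hw : CR w) (j : ZMod (m+1)) :
    vol w hw (w j) (j+1) = Pi.single j 1 ∧ dst w hw (w j) (j+1) = j := by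
  rcases hj : w j with ⟨g, b⟩
  cases b
  · have h1 : ¬ w (j-1) = (g, true) := by
      intro h
      apply hw (j-1)
      rw [sub_add_cancel, h, hj]; rfl
    have h2 : sig w hw g j = j+1 := by
      rw [sig_spec w hw g j (Or.inr hj), pf, if_neg h1]
    have h3 : (sig w hw g).symm (j+1) = j := by rw [Equiv.symm_apply_eq, h2]
    constructor
    · simp only [vol, Bool.false_eq_true, if_false]
      rw [h3, V, if_neg h1, if_pos hj, Pi.single_neg, neg_neg]
    · simp only [dst, Bool.false_eq_true, if_false]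
      exact h3
  · have h0 : w (j+1-1) = (g, true) := by rw [add_sub_cancel_right]; exact hj
    constructor
    · simp only [vol, if_true]
      rw [V, if_pos h0, add_sub_cancel_right]
    · simp only [dst, if_true]
      rw [sig_spec w hw g (j+1) (Or.inl h0), pf, if_pos h0, add_sub_cancel_right]

/-- end point of the path of the word `L` (read from the right) from `x` -/
noncomputable def pos (hw : CR w) : List (α × Bool) → ZMod (m+1) → ZMod (m+1)
  | [], x => x
  | l :: L, x => dst w hw l (pos hw L x)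

/-- total voltage of this path -/
noncomputable def tot (hw : CR w) : List (α × Bool) → ZMod (m+1) → (ZMod (m+1) → ZMod 3)
  | [], _ => 0
  | l :: L, x => vol w hw l (pos w hw L x) + tot hw L x

/-- the word of `k` letters ending before `x` -/
def R : ℕ → ZMod (m+1) → List (α × Bool)
  | 0, _ => []
  | k+1, x => w (x - ((k+1 : ℕ) : ZMod (m+1))) :: R k x

omit [DecidableEq α] in
theorem R_length (k : ℕ) (x : ZMod (m+1)) : (R w k x).length = k := by
  induction k with
  | zero => rfl
  | succ k ih => simp [R, ih]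

theorem pos_R (hw : CR w) (k : ℕ) (x : ZMod (m+1)) : pos w hw (R w k x) x = x - (k : ZMod (m+1)) := by
  induction k with
  | zero => simp [R, pos]
  | succ k ih =>
    show dst w hw (w (x - ((k+1 : ℕ) : ZMod (m+1)))) (pos w hw (R w k x) x) = _
    rw [ih]
    have h : x - (k : ZMod (m+1)) = x - ((k+1 : ℕ) : ZMod (m+1)) + 1 := by push_cast; ring
    rw [h]
    exact (vol_w w hw _).2

theorem tot_R (hw : CR w) (k : ℕ) (x : ZMod (m+1)) :
    tot w hw (R w k x) x = ∑ i ∈ Finset.range k, Pi.single (x - ((i+1 : ℕ) : ZMod (m+1))) 1 := by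
  induction k with
  | zero => simp [R, tot]
  | succ k ih =>
    show vol w hw (w (x - ((k+1 : ℕ) : ZMod (m+1)))) (pos w hw (R w k x) x) + tot w hw (R w k x) x = _
    rw [ih, pos_R]
    have h : x - (k : ZMod (m+1)) = x - ((k+1 : ℕ) : ZMod (m+1)) + 1 := by push_cast; ring
    rw [h, (vol_w w hw _).1, Finset.sum_range_succ]
    exact add_comm _ _

theorem tot_full (hw : CR w) : tot w hw (R w (m+1) 0) 0 = fun _ => 1 := by
  rw [tot_R]
  funext j
  rw [Finset.sum_apply, Finset.sum_eq_single (-j - 1 : ZMod (m+1)).val]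
  · have h : (0 : ZMod (m+1)) - (((-j - 1 : ZMod (m+1)).val + 1 : ℕ) : ZMod (m+1)) = j := by
      push_cast
      rw [ZMod.natCast_zmod_val]; ring
    rw [h, Pi.single_eq_same]
  · intro i hi1 hi
    rw [Pi.single_apply, if_neg]
    intro h
    apply hi
    have h2 : (-j - 1 : ZMod (m+1)) = (i : ZMod (m+1)) := by rw [h]; push_cast; ring
    rw [h2, ZMod.val_natCast_of_lt (Finset.mem_range.1 hi1)]
  · intro h; exact absurd (Finset.mem_range.2 (ZMod.val_lt _)) h

/-- support of a vector -/
def supp (c : ZMod (m+1) → ZMod 3) : Finset (ZMod (m+1)) := Finset.univ.filter (fun j => c j ≠ 0)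

theorem supp_add_single (c : ZMod (m+1) → ZMod 3) (j : ZMod (m+1)) (a : ZMod 3) :
    supp (Pi.single j a + c) ⊆ insert j (supp c) := by
  intro i hi
  simp only [supp, Finset.mem_filter, Finset.mem_univ, true_and, Pi.add_apply,
    Finset.mem_insert] at hi ⊢
  by_cases hij : i = j
  · exact Or.inl hij
  · right
    rwa [Pi.single_eq_of_ne hij, zero_add] at hi

theorem supp_le (hw : CR w) (L : List (α × Bool)) (x : ZMod (m+1)) :
    (supp (tot w hw L x)).card ≤ L.length := by
  induction L with
  | nil => simp [tot, supp]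
  | cons l L ih =>
    show (supp (vol w hw l (pos w hw L x) + tot w hw L x)).card ≤ L.length + 1
    rcases vol_cases w hw l (pos w hw L x) with h | ⟨j, h, -⟩ | ⟨j, h⟩
    · rw [h, zero_add]; omega
    · rw [h]
      exact (Finset.card_le_card (supp_add_single _ _ _)).trans
        ((Finset.card_insert_le _ _).trans (by omega))
    · rw [h]
      exact (Finset.card_le_card (supp_add_single _ _ _)).trans
        ((Finset.card_insert_le _ _).trans (by omega))

theorem eq_R (hw : CR w) (L : List (α × Bool)) (x : ZMod (m+1))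
    (hc : (supp (tot w hw L x)).card = L.length) (hp : ∀ j, tot w hw L x j ≠ -1) :
    L = R w L.length x := by
  induction L with
  | nil => rfl
  | cons l L ih =>
    have hle := supp_le w hw L x
    change (supp (vol w hw l (pos w hw L x) + tot w hw L x)).card = L.length + 1 at hc
    change ∀ j, (vol w hw l (pos w hw L x) + tot w hw L x) j ≠ -1 at hp
    have key : ∀ (j : ZMod (m+1)) (a : ZMod 3), vol w hw l (pos w hw L x) = Pi.single j a →
        (supp (tot w hw L x)).card = L.length ∧ tot w hw L x j = 0 := by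
      intro j a h
      rw [h] at hc
      have h1 := Finset.card_le_card (supp_add_single (tot w hw L x) j a)
      have h2 := Finset.card_insert_le j (supp (tot w hw L x))
      have h3 : (supp (tot w hw L x)).card = L.length := by omega
      refine ⟨h3, ?_⟩
      by_contra h4
      have h5 : j ∈ supp (tot w hw L x) := by simp [supp, h4]
      rw [Finset.insert_eq_of_mem h5] at h1
      omega
    rcases vol_cases w hw l (pos w hw L x) with h | ⟨j, h, hl, hy, hd⟩ | ⟨j, h⟩
    · rw [h, zero_add] at hc; omega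
    · obtain ⟨h3, h4⟩ := key j 1 h
      have hp' : ∀ i, tot w hw L x i ≠ -1 := by
        intro i
        by_cases hij : i = j
        · rw [hij, h4]; decide
        · have := hp i
          rwa [Pi.add_apply, h, Pi.single_eq_of_ne hij, zero_add] at this
      have hL := ih h3 hp'
      have hpos : pos w hw L x = x - ((L.length : ℕ) : ZMod (m+1)) := by
        conv_lhs => rw [hL]
        exact pos_R w hw _ x
      show l :: L = w (x - ((L.length + 1 : ℕ) : ZMod (m+1))) :: R w L.length x
      rw [← hL, hl]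
      congr 2
      have : j = pos w hw L x - 1 := by rw [hy]; ring
      rw [this, hpos]; push_cast; ring
    · exfalso
      obtain ⟨h3, h4⟩ := key j (-1) h
      apply hp j
      rw [Pi.add_apply, h, h4, Pi.single_eq_same, add_zero]


omit [DecidableEq α] in
theorem R_snoc (k : ℕ) (x : ZMod (m+1)) : R w (k+1) x = R w k (x-1) ++ [w (x-1)] := by
  induction k with
  | zero => simp [R]
  | succ k ih =>
    show w (x - ((k+1+1 : ℕ) : ZMod (m+1))) :: R w (k+1) x = w (x - 1 - ((k+1 : ℕ) : ZMod (m+1))) ::
      R w k (x-1) ++ [w (x-1)]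
    rw [ih, List.cons_append]
    congr 2
    push_cast; ring

omit [DecidableEq α] in
theorem R_conj_pred (x : ZMod (m+1)) :
    IsConj (FreeGroup.mk (R w (m+1) x)) (FreeGroup.mk (R w (m+1) (x-1))) := by
  have h1 := R_snoc w m x
  have h2 : R w (m+1) (x-1) = [w (x-1)] ++ R w m (x-1) := by
    show w (x - 1 - ((m+1 : ℕ) : ZMod (m+1))) :: R w m (x-1) = _
    rw [ZMod.natCast_self, sub_zero]; rfl
  rw [h1, h2, ← FreeGroup.mul_mk, ← FreeGroup.mul_mk, isConj_iff]
  exact ⟨FreeGroup.mk [w (x-1)], by group⟩

omit [DecidableEq α] in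
theorem R_conj (x : ZMod (m+1)) :
    IsConj (FreeGroup.mk (R w (m+1) 0)) (FreeGroup.mk (R w (m+1) x)) := by
  have h : ∀ k : ℕ, IsConj (FreeGroup.mk (R w (m+1) 0))
      (FreeGroup.mk (R w (m+1) ((k : ℕ) : ZMod (m+1)))) := by
    intro k
    induction k with
    | zero => rw [Nat.cast_zero]
    | succ k ih =>
      refine ih.trans ?_
      have h1 := R_conj_pred w (((k+1 : ℕ) : ZMod (m+1)))
      have h2 : (((k+1 : ℕ) : ZMod (m+1))) - 1 = ((k : ℕ) : ZMod (m+1)) := by push_cast; ring
      rw [h2] at h1
      exact h1.symm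
  have := h x.val
  rwa [ZMod.natCast_zmod_val] at this

/-- the finite set acted on -/
abbrev P (m : ℕ) := ZMod (m+1) × (ZMod (m+1) → ZMod 3)

/-- the permutation of the generator `g` -/
noncomputable def gen (hw : CR w) (g : α) : Equiv.Perm (P m) where
  toFun p := (sig w hw g p.1, p.2 + V w g p.1)
  invFun p := ((sig w hw g).symm p.1, p.2 - V w g ((sig w hw g).symm p.1))
  left_inv p := by
    refine Prod.ext ?_ ?_
    · simp
    · simp
  right_inv p := by
    refine Prod.ext ?_ ?_
    · simp
    · simp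

/-- translations -/
def tr (b : ZMod (m+1) → ZMod 3) : Equiv.Perm (P m) :=
  Equiv.prodCongr (Equiv.refl _) (Equiv.addRight b)

/-- the finite group: permutations commuting with the translations -/
def Q (m : ℕ) : Subgroup (Equiv.Perm (P m)) := Subgroup.centralizer (Set.range (tr (m := m)))

theorem gen_mem (hw : CR w) (g : α) : gen w hw g ∈ Q m := by
  rw [Q, Subgroup.mem_centralizer_iff]
  rintro _ ⟨b, rfl⟩
  ext1 p
  show tr b (gen w hw g p) = gen w hw g (tr b p)
  refine Prod.ext rfl ?_
  show p.2 + V w g p.1 + b = p.2 + b + V w g p.1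
  abel

/-- the representation -/
noncomputable def rho (hw : CR w) : FreeGroup α →* Q m :=
  FreeGroup.lift (fun g => ⟨gen w hw g, gen_mem w hw g⟩)

theorem rho_mk (hw : CR w) (L : List (α × Bool)) (x : ZMod (m+1)) (a : ZMod (m+1) → ZMod 3) :
    (rho w hw (FreeGroup.mk L)).1 (x, a) = (pos w hw L x, a + tot w hw L x) := by
  induction L with
  | nil =>
    have : rho w hw (FreeGroup.mk []) = 1 := map_one _
    rw [this]; simp [pos, tot]
  | cons l L ih =>
    have h : FreeGroup.mk (l :: L) = FreeGroup.mk [l] * FreeGroup.mk L := by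
      rw [FreeGroup.mul_mk]; rfl
    rw [h, map_mul]
    show (rho w hw (FreeGroup.mk [l])).1 ((rho w hw (FreeGroup.mk L)).1 (x, a)) = _
    rw [ih]
    obtain ⟨g, b⟩ := l
    cases b
    · have h1 : rho w hw (FreeGroup.mk [(g, false)]) =
          (⟨gen w hw g, gen_mem w hw g⟩ : Q m)⁻¹ := by simp [rho]
      rw [h1]
      show ((sig w hw g).symm (pos w hw L x),
        a + tot w hw L x - V w g ((sig w hw g).symm (pos w hw L x))) =
        (dst w hw (g, false) (pos w hw L x), a + (vol w hw (g, false) (pos w hw L x) + tot w hw L x))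
      refine Prod.ext ?_ ?_
      · simp [dst]
      · simp only [vol, Bool.false_eq_true, if_false]; abel
    · have h1 : rho w hw (FreeGroup.mk [(g, true)]) =
          (⟨gen w hw g, gen_mem w hw g⟩ : Q m) := by simp [rho]
      rw [h1]
      show ((sig w hw g) (pos w hw L x),
        a + tot w hw L x + V w g (pos w hw L x)) =
        (dst w hw (g, true) (pos w hw L x), a + (vol w hw (g, true) (pos w hw L x) + tot w hw L x))
      refine Prod.ext ?_ ?_
      · simp [dst]
      · simp only [vol, if_true]; abel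

theorem main_sep (hw : CR w) (L : List (α × Bool)) (hL : L.length ≤ m+1)
    (h : IsConj (rho w hw (FreeGroup.mk (R w (m+1) 0))) (rho w hw (FreeGroup.mk L))) :
    ∃ x, L = R w (m+1) x := by
  obtain ⟨c, hc⟩ := isConj_iff.1 h
  obtain ⟨x, b, hxb⟩ : ∃ x b, c.1 (0, 0) = (x, b) := ⟨_, _, rfl⟩
  have h1 : (rho w hw (FreeGroup.mk (R w (m+1) 0))).1 (0, 0) = (0, fun _ => 1) := by
    rw [rho_mk, pos_R, tot_full]; simp
  have h2 : c.1 (0, fun _ => 1) = (x, b + fun _ => 1) := by
    have h3 := Subgroup.mem_centralizer_iff.1 c.2 (tr (fun _ => 1)) ⟨_, rfl⟩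
    have h4 := congrArg (fun σ : Equiv.Perm (P m) => σ (0, 0)) h3
    change tr (fun _ => 1) (c.1 (0, 0)) = c.1 (tr (fun _ => 1) (0, 0)) at h4
    rw [hxb] at h4
    have h5 : (tr (fun _ => 1) : Equiv.Perm (P m)) (0, 0) = (0, fun _ => 1) := by
      refine Prod.ext rfl ?_
      show (0 : ZMod (m+1) → ZMod 3) + (fun _ => 1) = fun _ => 1
      rw [zero_add]
    rw [h5] at h4
    exact h4.symm
  have h3 : (rho w hw (FreeGroup.mk L)).1 (x, b) = (x, b + fun _ => 1) := by
    have h4 : rho w hw (FreeGroup.mk L) * c = c * rho w hw (FreeGroup.mk (R w (m+1) 0)) := by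
      rw [← hc]; group
    have h5 := congrArg (fun σ : Q m => σ.1 (0, 0)) h4
    change (rho w hw (FreeGroup.mk L)).1 (c.1 (0, 0)) =
      c.1 ((rho w hw (FreeGroup.mk (R w (m+1) 0))).1 (0, 0)) at h5
    rw [hxb, h1, h2] at h5
    exact h5
  rw [rho_mk] at h3
  have h4 : tot w hw L x = fun _ => 1 := add_left_cancel (Prod.ext_iff.1 h3).2
  have h5 : (supp (tot w hw L x)).card = m+1 := by
    rw [h4]
    have : supp (fun _ : ZMod (m+1) => (1 : ZMod 3)) = Finset.univ := by
      ext j; simp [supp]
    rw [this, Finset.card_univ, ZMod.card]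
  have h6 := supp_le w hw L x
  have h7 : L.length = m+1 := by omega
  refine ⟨x, ?_⟩
  have h8 := eq_R w hw L x (by omega) (fun j => by rw [h4]; show (1 : ZMod 3) ≠ -1; decide)
  rwa [h7] at h8

end Rep

theorem exists_word {α : Type*} (u : FreeGroup α) : ∃ U : List (α × Bool),
    IsConj u (FreeGroup.mk U) ∧ ∀ L, IsConj u (FreeGroup.mk L) → U.length ≤ L.length := by
  classical
  have hex : ∃ n : ℕ, ∃ L : List (α × Bool), L.length = n ∧ IsConj u (FreeGroup.mk L) :=
    ⟨_, u.toWord, rfl, by rw [FreeGroup.mk_toWord]⟩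
  obtain ⟨L, hL1, hL2⟩ := Nat.find_spec hex
  exact ⟨L, hL2, fun L' h' => by rw [hL1]; exact Nat.find_min' hex ⟨L', rfl, h'⟩⟩

theorem R_eq_drop {α : Type*} {m : ℕ} (U : List (α × Bool)) (hU : U.length = m+1)
    (w : ZMod (m+1) → α × Bool) (hw : ∀ j : ZMod (m+1), w j = U[j.val]'(by rw [hU]; exact ZMod.val_lt j))
    (k : ℕ) (hk : k ≤ m+1) : R w k 0 = U.drop (m+1-k) := by
  induction k with
  | zero => simp [R, ← hU]
  | succ k ih =>
    show w (0 - ((k+1 : ℕ) : ZMod (m+1))) :: R w k 0 = _
    rw [ih (by omega), hw]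
    have h1 : (0 - ((k+1 : ℕ) : ZMod (m+1)) : ZMod (m+1)).val = m+1-(k+1) := by
      have h2 : (0 - ((k+1 : ℕ) : ZMod (m+1)) : ZMod (m+1)) = ((m+1-(k+1) : ℕ) : ZMod (m+1)) := by
        rw [Nat.cast_sub hk, ZMod.natCast_self]
      rw [h2, ZMod.val_natCast_of_lt (by omega)]
    have h3 : m+1-k = m+1-(k+1)+1 := by omega
    rw [h3, List.drop_eq_getElem_cons (i := m+1-(k+1)) (by omega)]
    simp only [h1]

theorem CR_of_min {α : Type*} {m : ℕ} (u : FreeGroup α) (U : List (α × Bool))
    (hu : IsConj u (FreeGroup.mk U))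
    (hmin : ∀ L, IsConj u (FreeGroup.mk L) → U.length ≤ L.length) (hU : U.length = m+1)
    (w : ZMod (m+1) → α × Bool) (hR : R w (m+1) 0 = U) : CR w := by
  intro j hj
  cases m with
  | zero =>
    have h1 : j + 1 = j := Subsingleton.elim (α := ZMod 1) _ _
    rw [h1] at hj
    have h2 := congrArg Prod.snd hj
    cases h : (w j).2 <;> simp [h] at h2
  | succ m =>
    have h1 : R w (m+1+1) j = w j :: w (j+1) :: R w m j := by
      show w (j - ((m+1+1 : ℕ) : ZMod (m+1+1))) :: w (j - ((m+1 : ℕ) : ZMod (m+1+1))) :: R w m j = _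
      rw [ZMod.natCast_self, sub_zero]
      congr 3
      have : ((m+1 : ℕ) : ZMod (m+1+1)) = -1 := by
        have h2 := ZMod.natCast_self (m+1+1)
        rw [Nat.cast_succ] at h2
        exact eq_neg_of_add_eq_zero_left h2
      rw [this]; ring
    have h2 : FreeGroup.mk (R w (m+1+1) j) = FreeGroup.mk (R w m j) := by
      rw [h1, hj]
      exact Quot.sound FreeGroup.Red.Step.cons_not
    have h3 := R_conj w j
    rw [hR, h2] at h3
    have h4 := hmin _ (hu.trans h3)
    rw [R_length, hU] at h4
    omega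

theorem core {α : Type*} (u v : FreeGroup α) (h : ¬ IsConj u v) (U W : List (α × Bool))
    (hu : IsConj u (FreeGroup.mk U))
    (hmin : ∀ L, IsConj u (FreeGroup.mk L) → U.length ≤ L.length)
    (hv : IsConj v (FreeGroup.mk W)) (hle : W.length ≤ U.length) :
    ∃ (Q : Type) (_ : Group Q) (_ : Finite Q) (ψ : FreeGroup α →* Q), ¬ IsConj (ψ u) (ψ v) := by
  classical
  obtain hn | ⟨m, hm⟩ : U.length = 0 ∨ ∃ m, U.length = m+1 := by
    cases h0 : U.length with
    | zero => exact Or.inl rfl
    | succ m => exact Or.inr ⟨m, rfl⟩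
  · exfalso
    have h1 : U = [] := List.length_eq_zero_iff.1 hn
    have h2 : W = [] := List.length_eq_zero_iff.1 (by omega)
    rw [h1] at hu
    rw [h2] at hv
    exact h (hu.trans hv.symm)
  · let w : ZMod (m+1) → α × Bool := fun j => U[j.val]'(by rw [hm]; exact ZMod.val_lt j)
    have hR : R w (m+1) 0 = U := by
      rw [R_eq_drop U hm w (fun j => rfl) (m+1) le_rfl]; simp
    have hw : CR w := CR_of_min u U hu hmin hm w hR
    refine ⟨Q m, inferInstance, inferInstance, rho w hw, fun hc => h ?_⟩
    have h1 : IsConj (rho w hw (FreeGroup.mk (R w (m+1) 0))) (rho w hw (FreeGroup.mk W)) := by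
      rw [hR]
      exact ((rho w hw).map_isConj hu).symm.trans (hc.trans ((rho w hw).map_isConj hv))
    obtain ⟨x, hx⟩ := main_sep w hw W (by omega) h1
    have h2 := R_conj w x
    rw [hR, ← hx] at h2
    exact hu.trans (h2.trans hv.symm)

/-- free groups are conjugacy separable -/
theorem free_conj_sep {X : Type*} (u v : FreeGroup X) (h : ¬ IsConj u v) :
    ∃ (Q : Type) (_ : Group Q) (_ : Finite Q) (ψ : FreeGroup X →* Q), ¬ IsConj (ψ u) (ψ v) := by
  obtain ⟨U, hU, hUm⟩ := exists_word u
  obtain ⟨W, hW, hWm⟩ := exists_word v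
  rcases le_total W.length U.length with hle | hle
  · exact core u v h U W hU hUm hW hle
  · obtain ⟨Q, i1, i2, ψ, hψ⟩ := core v u (fun h' => h h'.symm) W U hW hWm hU hle
    exact ⟨Q, i1, i2, ψ, fun h' => hψ h'.symm⟩

end Pool.Agent.H69FC
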